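import Pool.Agent.H326R2.Pi.Stmts
import Pool.Agent.Helper799.PNT

/-!
Tasks T17 and T18 (helper326's project, irrationality measure of `π`): asymptotics of `log (Mn n)`
from the prime number theorem, and the numerical value of the saving.
-/

open Filter

namespace Pool.Agent.H30R2.PiT17

open Pool.Agent.H326R2.Pi

lemma Lf_disj : ∀ x ∈ Lf, ∀ y ∈ Lf, x ≠ y → x.2 ≤ y.1 ∨ y.2 ≤ x.1 := by
  decide +kernel

lemma Lf_bds : ∀ x ∈ Lf, 40 ≤ x.1 ∧ x.1 < x.2 ∧ x.2 ≤ 6045 := by
  decide +kernel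

attribute [local irreducible] Lf

lemma Pset_disj (n : ℕ) : (Lf : Set (ℕ × ℕ)).PairwiseDisjoint (Pset n) := by
  intro x hx y hy hxy
  rw [Function.onFun, Finset.disjoint_left]
  intro p hp hq
  simp only [Pset, Finset.mem_filter] at hp hq
  rcases Lf_disj x hx y hy hxy with h | h
  · have := Nat.mul_le_mul_right p h
    omega
  · have := Nat.mul_le_mul_right p h
    omega

lemma mem_Om (n p : ℕ) (hp : p ∈ Om n) : p.Prime ∧ p ≤ 4 * n := by
  simp only [Om, Finset.mem_biUnion, Pset, Finset.mem_filter, Finset.mem_range] at hp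
  obtain ⟨x, hx, hpn, hpp, h1, h2⟩ := hp
  exact ⟨hpp, by omega⟩

lemma Dn_dvd (n : ℕ) : Dn n ∣ Nat.lcmUpto (4 * n) := by
  apply Finset.prod_primes_dvd
  · intro p hp
    exact (mem_Om n p hp).1.prime
  · intro p hp
    obtain ⟨h1, h3⟩ := mem_Om n p hp
    exact Finset.dvd_lcm (f := id) (Finset.mem_Icc.mpr ⟨h1.one_le, h3⟩)

lemma Mn_mul (n : ℕ) : Mn n * Dn n = Nat.lcmUpto (4 * n) := Nat.div_mul_cancel (Dn_dvd n)

lemma Dn_pos (n : ℕ) : 0 < Dn n := Finset.prod_pos fun p hp => (mem_Om n p hp).1.pos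

lemma Mn_pos (n : ℕ) : 0 < Mn n :=
  Nat.div_pos (Nat.le_of_dvd (Nat.lcmUpto_pos _) (Dn_dvd n)) (Dn_pos n)

lemma sum_Pset (n : ℕ) (uv : ℕ × ℕ) (hu : 40 ≤ uv.1) (huv : uv.1 < uv.2) :
    ∑ p ∈ Pset n uv, Real.log p
      = Chebyshev.theta ((60 * n : ℝ) / uv.1) - Chebyshev.theta ((60 * n : ℝ) / uv.2) := by
  classical
  have f1 : ⌊(60 * n : ℝ) / uv.1⌋₊ = 60 * n / uv.1 := by
    have := Nat.floor_div_eq_div (K := ℝ) (60 * n) uv.1
    push_cast at this
    exact this
  have f2 : ⌊(60 * n : ℝ) / uv.2⌋₊ = 60 * n / uv.2 := by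
    have := Nat.floor_div_eq_div (K := ℝ) (60 * n) uv.2
    push_cast at this
    exact this
  rw [Chebyshev.theta_eq_sum_Icc, Chebyshev.theta_eq_sum_Icc, f1, f2]
  have hsub : (Finset.Icc 0 (60 * n / uv.2)).filter Nat.Prime ⊆ (Finset.Icc 0 (60 * n / uv.1)).filter Nat.Prime := by
    apply Finset.filter_subset_filter
    apply Finset.Icc_subset_Icc_right
    exact Nat.div_le_div_left huv.le (by omega)
  rw [eq_sub_iff_add_eq, add_comm, ← Finset.sum_sdiff hsub, add_comm]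
  congr 1
  apply Finset.sum_congr _ (fun _ _ => rfl)
  ext p
  simp only [Pset, Finset.mem_filter, Finset.mem_range, Finset.mem_sdiff, Finset.mem_Icc, zero_le, true_and]
  have hu0 : 0 < uv.1 := by omega
  have hv0 : 0 < uv.2 := by omega
  rw [Nat.le_div_iff_mul_le hu0, Nat.le_div_iff_mul_le hv0, mul_comm p uv.1, mul_comm p uv.2]
  constructor
  · rintro ⟨h1, h2, h3, h4⟩
    exact ⟨⟨h3, h2⟩, fun h => by omega⟩
  · rintro ⟨⟨h1, h2⟩, h3⟩
    refine ⟨?_, h2, h1, ?_⟩
    · have := Nat.mul_le_mul_right p hu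
      omega
    · by_contra h
      exact h3 ⟨by omega, h2⟩

lemma log_Dn (n : ℕ) : Real.log (Dn n) = ∑ uv ∈ Lf,
    (Chebyshev.theta ((60 * n : ℝ) / uv.1) - Chebyshev.theta ((60 * n : ℝ) / uv.2)) := by
  rw [Dn, Nat.cast_prod, Real.log_prod]
  · rw [Om, Finset.sum_biUnion (Pset_disj n)]
    apply Finset.sum_congr rfl
    intro uv huv
    obtain ⟨h1, h2, -⟩ := Lf_bds uv huv
    exact sum_Pset n uv h1 h2
  · intro p hp
    have := (mem_Om n p hp).1.ne_zero
    exact_mod_cast this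

lemma theta_lim (u : ℕ) (hu : 0 < u) :
    Tendsto (fun n : ℕ => Chebyshev.theta ((60 * n : ℝ) / u) / n) atTop (nhds (60 / u)) := by
  have hu' : (0 : ℝ) < u := by exact_mod_cast hu
  have h1 : Tendsto (fun n : ℕ => (60 * n : ℝ) / u) atTop atTop := by
    have : (fun n : ℕ => (60 * n : ℝ) / u) = fun n : ℕ => (60 / u : ℝ) * n := by
      ext n; ring
    rw [this]
    exact tendsto_natCast_atTop_atTop.const_mul_atTop (by positivity)
  have h2 := (Pool.Agent.Helper799.PNT.theta_div_tendsto.comp h1).const_mul (60 / u : ℝ)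
  rw [mul_one] at h2
  refine h2.congr' ?_
  filter_upwards [eventually_gt_atTop 0] with n hn
  have hn' : (0 : ℝ) < n := by exact_mod_cast hn
  simp only [Function.comp_apply]
  field_simp

lemma psi_lim :
    Tendsto (fun n : ℕ => Chebyshev.psi ((4 * n : ℕ) : ℝ) / n) atTop (nhds 4) := by
  have h1 : Tendsto (fun n : ℕ => ((4 * n : ℕ) : ℝ)) atTop atTop := by
    have : (fun n : ℕ => ((4 * n : ℕ) : ℝ)) = fun n : ℕ => (4 : ℝ) * n := by
      ext n; push_cast; ring
    rw [this]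
    exact tendsto_natCast_atTop_atTop.const_mul_atTop (by positivity)
  have h2 := (Pool.Agent.Helper799.PNT.psi_div_tendsto.comp h1).const_mul (4 : ℝ)
  rw [mul_one] at h2
  refine h2.congr' ?_
  filter_upwards [eventually_gt_atTop 0] with n hn
  have hn' : (0 : ℝ) < n := by exact_mod_cast hn
  simp only [Function.comp_apply]
  push_cast
  field_simp

lemma log_Mn_lim : Tendsto (fun n : ℕ => Real.log (Mn n) / n) atTop (nhds (4 - sav)) := by
  have h1 : Tendsto (fun n : ℕ => ∑ uv ∈ Lf,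
      (Chebyshev.theta ((60 * n : ℝ) / uv.1) / n - Chebyshev.theta ((60 * n : ℝ) / uv.2) / n)) atTop
      (nhds sav) := by
    unfold sav
    apply tendsto_finsetSum
    intro uv huv
    obtain ⟨h1, h2, -⟩ := Lf_bds uv huv
    exact (theta_lim uv.1 (by omega)).sub (theta_lim uv.2 (by omega))
  refine (psi_lim.sub h1).congr ?_
  intro n
  have hM : (0 : ℝ) < Mn n := by exact_mod_cast Mn_pos n
  have hD : (0 : ℝ) < Dn n := by exact_mod_cast Dn_pos n
  have e : Chebyshev.psi ((4 * n : ℕ) : ℝ) = Real.log (Mn n) + Real.log (Dn n) := by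
    rw [Chebyshev.psi_eq_log_lcmUpto, ← Mn_mul]
    push_cast
    rw [Real.log_mul hM.ne' hD.ne']
  rw [e, log_Dn, add_div, Finset.sum_div]
  have : ∑ uv ∈ Lf, (Chebyshev.theta ((60 * n : ℝ) / uv.1) - Chebyshev.theta ((60 * n : ℝ) / uv.2)) / n
      = ∑ uv ∈ Lf, (Chebyshev.theta ((60 * n : ℝ) / uv.1) / n - Chebyshev.theta ((60 * n : ℝ) / uv.2) / n) :=
    Finset.sum_congr rfl fun uv _ => sub_div _ _ _
  rw [this]
  ring

/-- T17 -/
theorem t17 : S_Mn := by
  intro η hη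
  have h := log_Mn_lim
  rw [Metric.tendsto_atTop] at h
  obtain ⟨N, hN⟩ := h η hη
  filter_upwards [eventually_ge_atTop N, eventually_gt_atTop 0] with n hn hn0
  have h1 := hN n hn
  rw [Real.dist_eq, abs_lt] at h1
  have hn' : (0 : ℝ) < n := by exact_mod_cast hn0
  have hM : (0 : ℝ) < Mn n := by exact_mod_cast Mn_pos n
  have h2 : Real.log (Mn n) = Real.log (Mn n) / n * n := by field_simp
  constructor
  · rw [← Real.le_log_iff_exp_le hM, h2]
    apply mul_le_mul_of_nonneg_right _ hn'.le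
    linarith
  · rw [← Real.log_le_iff_le_exp hM, h2]
    apply mul_le_mul_of_nonneg_right _ hn'.le
    linarith

end Pool.Agent.H30R2.PiT17
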